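import Mathlib
import Pool.Agent.Helper37.ES.Main

set_option autoImplicit false

namespace Pool.Agent.Results.MP_98699e_co.LocalTwoColours

open Finset

/-- The set of colours that appear on the edges of `G` at the vertex `v`. -/
noncomputable def coloursAt {V : Type} [Fintype V] {m : ℕ} (G : SimpleGraph V)
    (c : Sym2 V → ZMod m) (v : V) : Set (ZMod m) :=
  {g | ∃ w, G.Adj v w ∧ c s(v, w) = g}

section aux

variable {V : Type} [Fintype V] [DecidableEq V] {m : ℕ}

open Classical in
lemma mono_of_class (T : SimpleGraph (Fin (m + 1))) (hT : T.IsTree)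
    (G : SimpleGraph V) (c : Sym2 V → ZMod m) (g : ZMod m)
    (h : (m - 1) * (univ.filter fun v => ∃ w, G.Adj v w ∧ c s(v, w) = g).card
      < ∑ v, (univ.filter fun w => G.Adj v w ∧ c s(v, w) = g).card) :
    ∃ f : Fin (m + 1) → V, Function.Injective f ∧
      ∀ a b, T.Adj a b → G.Adj (f a) (f b) ∧ c s(f a, f b) = g := by
  set U := {v : V // ∃ w, G.Adj v w ∧ c s(v, w) = g} with hU
  let H : SimpleGraph U :=
    { Adj := fun u v => G.Adj u.1 v.1 ∧ c s(u.1, v.1) = g
      symm := ⟨fun u v h => ⟨h.1.symm, by rw [Sym2.eq_swap]; exact h.2⟩⟩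
      loopless := ⟨fun u h => G.loopless.irrefl _ h.1⟩ }
  have hdeg : ∀ u : U, H.degree u = (univ.filter fun w => G.Adj u.1 w ∧ c s(u.1, w) = g).card := by
    intro u
    rw [← SimpleGraph.card_neighborFinset_eq_degree]
    refine Finset.card_bij (fun a _ => a.1) ?_ ?_ ?_
    · intro a ha
      rw [SimpleGraph.mem_neighborFinset] at ha
      simpa using ha
    · intro a _ b _ hab
      exact Subtype.ext hab
    · intro b hb
      simp only [mem_filter, mem_univ, true_and] at hb
      exact ⟨⟨b, u.1, hb.1.symm, by rw [Sym2.eq_swap]; exact hb.2⟩, by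
        rw [SimpleGraph.mem_neighborFinset]; exact hb, rfl⟩
  have hsum : 2 * H.edgeFinset.card
      = ∑ v, (univ.filter fun w => G.Adj v w ∧ c s(v, w) = g).card := by
    rw [← H.sum_degrees_eq_twice_card_edges]
    simp only [hdeg]
    have hsub := Finset.sum_subtype_eq_sum_filter (s := (univ : Finset V))
      (p := fun v => ∃ w, G.Adj v w ∧ c s(v, w) = g)
      (f := fun v => (univ.filter fun w => G.Adj v w ∧ c s(v, w) = g).card)
    have h1 : ∑ u : U, (univ.filter fun w => G.Adj u.1 w ∧ c s(u.1, w) = g).card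
        = ∑ v ∈ univ.filter (fun v => ∃ w, G.Adj v w ∧ c s(v, w) = g),
          (univ.filter fun w => G.Adj v w ∧ c s(v, w) = g).card := by
      rw [← hsub]
      apply Finset.sum_congr
      · ext x; simp
      · intro x _; rfl
    rw [h1]
    apply Finset.sum_subset (Finset.subset_univ _)
    intro v _ hv
    simp only [mem_filter, mem_univ, true_and, not_exists] at hv
    rw [Finset.card_eq_zero, Finset.filter_eq_empty_iff]
    intro w _ hw
    exact hv w hw
  have hcard : Fintype.card U = (univ.filter fun v => ∃ w, G.Adj v w ∧ c s(v, w) = g).card := by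
    rw [Fintype.card_subtype]
  obtain ⟨f, hf⟩ := ES37.erdos_sos H m (by rw [hsum, hcard]; exact h) T hT (Fintype.card_fin _)
  refine ⟨fun a => (f a).1, ?_, fun a b hab => hf a b hab⟩
  intro a b hab
  exact f.injective (Subtype.ext hab)

open Classical in
lemma main (hm : 0 < m) (T : SimpleGraph (Fin (m + 1))) (hT : T.IsTree)
    (G : SimpleGraph V) (c : Sym2 V → ZMod m)
    (h : (m - 1) * ∑ v, (coloursAt G c v).ncard
      < ∑ v, (univ.filter fun w => G.Adj v w).card) :
    ∃ (g : ZMod m) (f : Fin (m + 1) → V), Function.Injective f ∧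
      ∀ a b, T.Adj a b → G.Adj (f a) (f b) ∧ c s(f a, f b) = g := by
  have : NeZero m := ⟨hm.ne'⟩
  by_contra hcon
  push Not at hcon
  have key : ∀ g : ZMod m, ∑ v, (univ.filter fun w => G.Adj v w ∧ c s(v, w) = g).card
      ≤ (m - 1) * (univ.filter fun v => ∃ w, G.Adj v w ∧ c s(v, w) = g).card := by
    intro g
    by_contra hlt
    push Not at hlt
    obtain ⟨f, hf, hadj⟩ := mono_of_class T hT G c g hlt
    obtain ⟨a, b, hab, hne⟩ := hcon g f hf
    exact hne (hadj a b hab).1 (hadj a b hab).2
  have h1 : ∑ g : ZMod m, ∑ v, (univ.filter fun w => G.Adj v w ∧ c s(v, w) = g).card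
      = ∑ v, (univ.filter fun w => G.Adj v w).card := by
    rw [Finset.sum_comm]
    refine Finset.sum_congr rfl fun v _ => ?_
    have := Finset.card_eq_sum_card_fiberwise (s := univ.filter fun w => G.Adj v w)
      (t := (univ : Finset (ZMod m))) (f := fun w => c s(v, w)) (fun x _ => by simp)
    rw [this]
    refine Finset.sum_congr rfl fun g _ => ?_
    rw [Finset.filter_filter]
  have h2 : ∑ g : ZMod m, (univ.filter fun v => ∃ w, G.Adj v w ∧ c s(v, w) = g).card
      = ∑ v, (coloursAt G c v).ncard := by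
    have h3 : ∀ v, (coloursAt G c v).ncard
        = (univ.filter fun g : ZMod m => ∃ w, G.Adj v w ∧ c s(v, w) = g).card := by
      intro v
      rw [← Set.ncard_coe_finset]
      congr 1
      ext g
      simp [coloursAt]
    simp only [h3]
    simp only [Finset.card_filter]
    rw [Finset.sum_comm]
  have h4 : ∑ v, (univ.filter fun w => G.Adj v w).card
      ≤ (m - 1) * ∑ v, (coloursAt G c v).ncard := by
    rw [← h1, ← h2, Finset.mul_sum]
    exact Finset.sum_le_sum fun g _ => key g
  omega

omit [Fintype V] [DecidableEq V] in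
lemma zero_sum (T : SimpleGraph (Fin (m + 1))) [Fintype T.edgeSet] (hT : T.IsTree)
    (c : Sym2 V → ZMod m) (g : ZMod m) (f : Fin (m + 1) → V)
    (h : ∀ a b, T.Adj a b → c s(f a, f b) = g) :
    ∑ e ∈ T.edgeFinset, c (Sym2.map f e) = 0 := by
  have h1 : ∀ e ∈ T.edgeFinset, c (Sym2.map f e) = g := by
    intro e he
    rw [SimpleGraph.mem_edgeFinset] at he
    induction e with
    | _ a b =>
      rw [Sym2.map_mk]
      exact h a b he
  rw [Finset.sum_congr rfl h1, Finset.sum_const]
  have h2 := hT.card_edgeFinset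
  rw [Fintype.card_fin] at h2
  have h3 : T.edgeFinset.card = m := by omega
  rw [h3, nsmul_eq_mul, ZMod.natCast_self, zero_mul]

end aux

/-- See the claim file. -/
theorem result :
    -- the min-degree statement of the question, for colourings with few colours at each vertex
    (∀ (m : ℕ), 0 < m →
      ∀ (T : SimpleGraph (Fin (m + 1))) [DecidableRel T.Adj], T.IsTree →
      ∀ (V : Type) [Fintype V] [Nonempty V] (G : SimpleGraph V) [DecidableRel G.Adj],
        (∀ v : V, 2 * m - 1 ≤ G.degree v) →
        ∀ c : Sym2 V → ZMod m,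
          (m - 1) * ∑ v, (coloursAt G c v).ncard < (2 * m - 1) * Fintype.card V →
          ∃ f : Fin (m + 1) → V, Function.Injective f ∧
            (∀ a b : Fin (m + 1), T.Adj a b → G.Adj (f a) (f b)) ∧
            ∑ e ∈ T.edgeFinset, c (Sym2.map f e) = 0) ∧
    -- the same with at most two colours at each vertex
    (∀ (m : ℕ), 0 < m →
      ∀ (T : SimpleGraph (Fin (m + 1))) [DecidableRel T.Adj], T.IsTree →
      ∀ (V : Type) [Fintype V] [Nonempty V] (G : SimpleGraph V) [DecidableRel G.Adj],
        (∀ v : V, 2 * m - 1 ≤ G.degree v) →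
        ∀ c : Sym2 V → ZMod m,
          (∀ v : V, (coloursAt G c v).ncard ≤ 2) →
          ∃ f : Fin (m + 1) → V, Function.Injective f ∧
            (∀ a b : Fin (m + 1), T.Adj a b → G.Adj (f a) (f b)) ∧
            ∑ e ∈ T.edgeFinset, c (Sym2.map f e) = 0) ∧
    -- any graph, with the average degree compared with the average number of colours at a vertex
    (∀ (m : ℕ), 0 < m →
      ∀ (T : SimpleGraph (Fin (m + 1))) [DecidableRel T.Adj], T.IsTree →
      ∀ (V : Type) [Fintype V] (G : SimpleGraph V) [DecidableRel G.Adj] (c : Sym2 V → ZMod m),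
        (m - 1) * ∑ v, (coloursAt G c v).ncard < ∑ v, G.degree v →
        ∃ f : Fin (m + 1) → V, Function.Injective f ∧
          (∃ g : ZMod m, ∀ a b : Fin (m + 1), T.Adj a b →
            G.Adj (f a) (f b) ∧ c s(f a, f b) = g) ∧
          ∑ e ∈ T.edgeFinset, c (Sym2.map f e) = 0) := by
  have C : ∀ (m : ℕ), 0 < m →
      ∀ (T : SimpleGraph (Fin (m + 1))) [DecidableRel T.Adj], T.IsTree →
      ∀ (V : Type) [Fintype V] (G : SimpleGraph V) [DecidableRel G.Adj] (c : Sym2 V → ZMod m),
        (m - 1) * ∑ v, (coloursAt G c v).ncard < ∑ v, G.degree v →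
        ∃ f : Fin (m + 1) → V, Function.Injective f ∧
          (∃ g : ZMod m, ∀ a b : Fin (m + 1), T.Adj a b →
            G.Adj (f a) (f b) ∧ c s(f a, f b) = g) ∧
          ∑ e ∈ T.edgeFinset, c (Sym2.map f e) = 0 := by
    intro m hm T _ hT V _ G _ c h
    classical
    obtain ⟨g, f, hf, hadj⟩ := main hm T hT G c (by
      refine lt_of_lt_of_eq h (Finset.sum_congr rfl fun v _ => ?_)
      rw [← SimpleGraph.card_neighborFinset_eq_degree]
      congr 1
      ext w
      simp)
    exact ⟨f, hf, ⟨g, hadj⟩, zero_sum T hT c g f fun a b hab => (hadj a b hab).2⟩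
  have A : ∀ (m : ℕ), 0 < m →
      ∀ (T : SimpleGraph (Fin (m + 1))) [DecidableRel T.Adj], T.IsTree →
      ∀ (V : Type) [Fintype V] [Nonempty V] (G : SimpleGraph V) [DecidableRel G.Adj],
        (∀ v : V, 2 * m - 1 ≤ G.degree v) →
        ∀ c : Sym2 V → ZMod m,
          (m - 1) * ∑ v, (coloursAt G c v).ncard < (2 * m - 1) * Fintype.card V →
          ∃ f : Fin (m + 1) → V, Function.Injective f ∧
            (∀ a b : Fin (m + 1), T.Adj a b → G.Adj (f a) (f b)) ∧
            ∑ e ∈ T.edgeFinset, c (Sym2.map f e) = 0 := by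
    intro m hm T _ hT V _ _ G _ hdeg c h
    have h1 : (2 * m - 1) * Fintype.card V ≤ ∑ v, G.degree v := by
      have := Finset.sum_le_sum (s := (univ : Finset V)) fun v _ => hdeg v
      rw [Finset.sum_const, Finset.card_univ, smul_eq_mul] at this
      rw [mul_comm]
      exact this
    obtain ⟨f, hf, ⟨g, hg⟩, h0⟩ := C m hm T hT V G c (lt_of_lt_of_le h h1)
    exact ⟨f, hf, fun a b hab => (hg a b hab).1, h0⟩
  refine ⟨A, ?_, C⟩
  intro m hm T _ hT V _ _ G _ hdeg c h
  refine A m hm T hT V G hdeg c ?_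
  have h1 : ∑ v, (coloursAt G c v).ncard ≤ 2 * Fintype.card V := by
    have := Finset.sum_le_sum (s := (univ : Finset V)) fun v _ => h v
    rw [Finset.sum_const, Finset.card_univ, smul_eq_mul] at this
    rw [mul_comm]
    exact this
  have hpos : 0 < Fintype.card V := Fintype.card_pos
  calc (m - 1) * ∑ v, (coloursAt G c v).ncard
      ≤ (m - 1) * (2 * Fintype.card V) := Nat.mul_le_mul_left _ h1
    _ < (2 * m - 1) * Fintype.card V := by
        obtain ⟨k, rfl⟩ : ∃ k, m = k + 1 := ⟨m - 1, by omega⟩
        have e1 : k + 1 - 1 = k := by omega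
        have e2 : 2 * (k + 1) - 1 = 2 * k + 1 := by omega
        rw [e1, e2]
        nlinarith

end Pool.Agent.Results.MP_98699e_co.LocalTwoColours
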